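import Pool.Agent.H76.CW.StmtB

/-! AVO: good pieces contain good pieces which avoid all parameters. -/

set_option autoImplicit false

open Set Pool.Agent.TK Pool.Agent.H71.VK

namespace Pool.Agent.CW

theorem pf_AVO (hSPL : T_SPL) (hRFT : T_RFT) : T_AVO := by
  classical
  intro n c Sm G k hk π hπ hgood Z
  obtain ⟨σ, S, F, x, hv, -, hf⟩ := hSPL n c Sm G k hk π hπ hgood
  obtain ⟨hρ, hS, hx, hxS⟩ := vd_cons.1 hv
  simp only at hS hx hxS
  set ρ : Pr := σ ++ π with hρdef
  set W : List ℕ := (Z ++ dl ρ).filter (fun a => decide (a ∈ st c ρ ∧ a ≠ x)) with hW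
  have hWm : ∀ a, a ∈ W ↔ (a ∈ Z ∨ a ∈ dl ρ) ∧ a ∈ st c ρ ∧ a ≠ x := by
    intro a
    rw [hW, List.mem_filter, List.mem_append, decide_eq_true_eq]
  have hLL : S ++ zl ρ ⊆ (S ++ W) ++ zl ρ := by
    intro a ha
    rcases List.mem_append.1 ha with h | h
    · exact List.mem_append_left _ (List.mem_append_left _ h)
    · exact List.mem_append_right _ h
  obtain ⟨F', hF', -⟩ := hRFT n c G.bd (S ++ zl ρ) ((S ++ W) ++ zl ρ) hLL F
  have hV : Vd c ((S ++ W, F', x, false) :: ρ) := by
    refine vd_cons.2 ⟨hρ, ?_, hx, ?_⟩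
    · intro a ha
      rcases List.mem_append.1 ha with h | h
      · exact hS a h
      · exact ((hWm a).1 h).2.1
    · intro h
      rcases List.mem_append.1 h with h | h
      · exact hxS h
      · exact ((hWm x).1 h).2.2 rfl
  have hcl : cl c (st c ρ) ((S ++ W) ++ zl ρ) F' x ⊆ cl c (st c ρ) (S ++ zl ρ) F x := by
    refine cl_min self_mem_cl ?_
    intro u hu v hvP hvL hA
    refine Relation.ReflTransGen.tail hu ⟨?_, hvP, fun h => hvL (hLL h)⟩
    unfold Ar at hA ⊢
    rw [hF' u v] at hA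
    exact hA
  have hout : ∀ a, a ∈ Z ∨ a ∈ dl ρ ∨ a = x ∨ a ∈ S ++ W →
      a ∉ st c ((S ++ W, F', x, false) :: ρ) := by
    intro a ha h
    rw [st_false] at h
    obtain ⟨h1, h2, h3⟩ := h
    by_cases hax : a = x
    · rw [hax] at h3
      exact h3 self_mem_cl
    · apply h2
      rcases ha with h4 | h4 | h4 | h4
      · exact List.mem_append_left _ (List.mem_append_right _ ((hWm a).2 ⟨Or.inl h4, h1, hax⟩))
      · exact List.mem_append_left _ (List.mem_append_right _ ((hWm a).2 ⟨Or.inr h4, h1, hax⟩))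
      · exact absurd h4 hax
      · exact List.mem_append_left _ h4
  refine ⟨(S ++ W, F', x, false) :: σ, hV, ?_, ?_, ?_⟩
  · intro hN
    have hN' : G.Nn (st c ((S ++ W, F', x, false) :: ρ)) := hN
    apply hf
    refine (hN'.union (G.nn_list (S ++ W))).mono ?_
    intro y hy
    rw [st_false] at hy
    obtain ⟨h1, h2, h3⟩ := hy
    by_cases hyS : y ∈ S ++ W
    · exact Or.inr hyS
    · left
      rw [st_false]
      refine ⟨h1, ?_, fun h4 => h3 (hcl h4)⟩
      intro h4
      rcases List.mem_append.1 h4 with h5 | h5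
      · exact hyS h5
      · exact h2 (List.mem_append_right _ h5)
  · intro a ha
    exact hout a (Or.inl ha)
  · intro a ha
    have ha' : a ∈ dl ((S ++ W, F', x, false) :: ρ) := ha
    rw [dl_cons, List.mem_cons, List.mem_append] at ha'
    rcases ha' with h | h | h
    · exact hout a (Or.inr (Or.inr (Or.inl h)))
    · exact hout a (Or.inr (Or.inr (Or.inr h)))
    · exact hout a (Or.inr (Or.inl h))

end Pool.Agent.CW
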