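import Pool.Agent.H76.CW.StmtC

/-! CTB: countably many types of small pieces. -/

set_option autoImplicit false

open Set Pool.Agent.TK Pool.Agent.H71.VK

namespace Pool.Agent.CW

private lemma exists_partner : ∀ (x y : List ℕ), y.length = x.length → ∀ a ∈ x,
    ∃ b, (a, b) ∈ x.zip y := by
  intro x
  induction x with
  | nil => intro y _ a ha; simp at ha
  | cons c x ih =>
    intro y hy a ha
    cases y with
    | nil => simp at hy
    | cons d y =>
      rcases List.mem_cons.1 ha with rfl | ha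
      · exact ⟨d, by simp⟩
      · obtain ⟨b, hb⟩ := ih y (by simpa using hy) a ha
        exact ⟨b, by rw [List.zip_cons_cons]; exact List.mem_cons_of_mem _ hb⟩

theorem pf_CTB {C : Type} (hFBP : T_FBP C) : T_CTB C := by
  classical
  intro c0 n X hX hTC b
  obtain ⟨T0, hT0, hT0X, hT⟩ := hTC (Sh om2 b)
  set w : (St (C × ℕ) × List ℕ) → Pr → Set (Tr C) := fun t ρ =>
    if h : sml c0 n b t.1 (zl ρ) (st (bn t.1) ρ) then h.choose else ∅ with hw
  have hwc : ∀ t ρ, (w t ρ).Countable := by
    intro t ρ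
    rw [hw]
    simp only
    by_cases h : sml c0 n b t.1 (zl ρ) (st (bn t.1) ρ)
    · rw [dif_pos h]
      exact h.choose_spec.1
    · rw [dif_neg h]
      exact Set.countable_empty
  refine ⟨⋃ t ∈ T0, ⋃ ρ : Pr, w t ρ, ?_, ?_⟩
  · exact hT0.biUnion fun t _ => Set.countable_iUnion fun ρ => hwc t ρ
  · intro M hM π _ hs
    obtain ⟨t, ht, hl, hbf⟩ := hT M hM (dl π)
    have hpart := exists_partner (dl π) t.2 hl
    choose! h hh using hpart
    have hFB : FB b M (zl π) (st (bn M) π) t.1 (zl (mp h π)) (st (bn t.1) (mp h π)) :=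
      hFBP M t.1 π h ((dl π).zip t.2) b hbf hh
    have hs' : sml c0 n b t.1 (zl (mp h π)) (st (bn t.1) (mp h π)) := by
      obtain ⟨T, hTc, hTs⟩ := hs
      exact ⟨T, hTc, fun N z' Q hN hFB' => hTs N z' Q hN (hFB.trans hFB')⟩
    have h1 : InO (w t (mp h π)) M (zl π) (st (bn M) π) := by
      have e : w t (mp h π) = hs'.choose := by
        rw [hw]
        simp only
        rw [dif_pos hs']
      rw [e]
      exact hs'.choose_spec.2 M (zl π) (st (bn M) π) (hX M hM) hFB.symm
    obtain ⟨u, hu, hFI⟩ := h1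
    exact ⟨u, Set.mem_biUnion ht (Set.mem_iUnion.2 ⟨mp h π, hu⟩), hFI⟩

end Pool.Agent.CW
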