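import Pool.Agent.H76.CW.StmtB

/-! DC2: a good piece contains a good piece which decides a given piece. -/

set_option autoImplicit false

open Set Pool.Agent.TK Pool.Agent.H71.VK

namespace Pool.Agent.CW

theorem pf_DC2 (hDEC : T_DEC) (hFTY : T_FTY) : T_DC2 := by
  classical
  intro n c Sm G π ρ hπ hρ hgood
  have hfin := hFTY n c G.bd (zl ρ)
  set K : Finset Ty := hfin.toFinset with hK
  have hmem : ∀ x, tp c (zl ρ) x ∈ K := fun x => by
    rw [hK, Set.Finite.mem_toFinset]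
    exact ⟨x, rfl⟩
  have hfew : Few c K.card (st c π \ (st c ρ ∩ st c π)) (st c ρ ∩ st c π) := by
    refine ⟨fun x => K.equivFin ⟨tp c (zl ρ) x, hmem x⟩, ?_⟩
    intro a ha a' ha' h z hz
    have h1 : tp c (zl ρ) a = tp c (zl ρ) a' := by
      have h2 := K.equivFin.injective h
      exact congrArg Subtype.val h2
    have hz' : z ∉ st c ρ := fun h3 => hz.2 ⟨h3, hz.1⟩
    exact ctl hρ ha.1 ha'.1 h1 hz'
  obtain ⟨s, h1, h2, h3⟩ := hDEC n c Sm G π hπ hgood K.card (st c ρ ∩ st c π)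
    (fun x hx => hx.2) hfew
  refine ⟨[s], h1, h2, ?_⟩
  rcases h3 with h3 | h3
  · exact Or.inl fun x hx => (h3 hx).1
  · right
    rw [Set.disjoint_left] at h3 ⊢
    intro x hx hx'
    exact h3 hx ⟨hx', (st_sub (s := s) h1 x hx).1⟩

end Pool.Agent.CW
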